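import Pool.Agent.helper25.TW.Spec

set_option autoImplicit false

namespace TP.TW

open DP MeasureTheory Finset

theorem LCR_rect_finite (a b d e : ℤ) : (rect a b d e).Finite := by
  apply ((Set.finite_Icc a b).prod (Set.finite_Icc d e)).subset
  intro v hv
  obtain ⟨h1, h2, h3, h4⟩ := hv
  exact ⟨⟨h1, h2⟩, ⟨h3, h4⟩⟩

theorem LCR_til_finite (S : Finset V) : (til S).Finite := by
  classical
  apply (S ∪ S.image fun v => ((v.1 + 1, v.2) : V)).finite_toSet.subset
  intro v hv
  have hv' : br v ∈ S := hv
  simp only [Finset.coe_union, Set.mem_union, Finset.mem_coe, Finset.coe_image, Set.mem_image]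
  rcases br_eq v with h | h
  · left
    rw [h] at hv'
    exact hv'
  · right
    refine ⟨br v, hv', ?_⟩
    rw [h]
    ext <;> simp

theorem LCR_crs {c c' : V → Bool} {a b d e : ℤ} (hc : ∀ v ∈ rect a b d e, c v = c' v)
    (o k : Bool) (W : Set V) : crs o c k W a b d e ↔ crs o c' k W a b d e := by
  unfold crs
  have h : ∀ v ∈ rect a b d e ∩ W, c v = c' v := fun v hv => hc v hv.1
  simp only [Conn.congr h]

theorem LCR : LCR_stmt := by
  refine ⟨?_, ?_, ?_, ?_⟩
  · intro o k W a b d e
    exact Loc.ev (LCR_rect_finite a b d e) fun c c' hc => LCR_crs hc o k W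
  · intro o k a b d e m
    refine Loc.ev (LCR_rect_finite a b d e) fun c c' hc => ?_
    unfold many
    simp only [LCR_crs hc]
  · intro k S x t
    refine Loc.ev (LCR_til_finite S) fun c c' hc => ?_
    unfold SR
    simp only [Conn.congr hc]
  · intro S v₀
    refine Loc.ev (LCR_til_finite S) fun c c' hc => ?_
    unfold BAD
    simp only [Conn.congr hc]

end TP.TW
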